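import Mathlib

/-!
# MP_e40659_an: a fibre stable manifold which is a complex line

For every `d ≥ 2` there is a skew product `F(z₁,z₂,z₃) = (z₁^d, G_{z₁}(z₂,z₃))` as in the problem
and a point `p₁` of the unit circle such that the stable manifold of `(p₁,0,0)` is a complex line.
In particular it is not biholomorphic to `ℂ²`.
-/

open Filter Topology

namespace Pool.Agent.Results.MP_e40659_an.SaddleFiber

/-- The skew product `F(z₁, w) = (z₁ ^ d, G_{z₁}(w))`, with `w ∈ ℂ²`. -/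
def skew (d : ℕ) (G : ℂ → ℂ × ℂ → ℂ × ℂ) : ℂ × (ℂ × ℂ) → ℂ × (ℂ × ℂ) :=
  fun x => (x.1 ^ d, G x.1 x.2)

/-- The standing assumptions of the problem on the family `G`. -/
structure Admissible (G : ℂ → ℂ × ℂ → ℂ × ℂ) : Prop where
  /-- `(z₁, z₂, z₃) ↦ G_{z₁}(z₂, z₃)` is holomorphic on `ℂ³` -/
  holo : Differentiable ℂ (fun x : ℂ × (ℂ × ℂ) => G x.1 x.2)
  /-- for `|l| = 1` the map `G_l` is a holomorphic automorphism of `ℂ²` -/
  auto : ∀ l : ℂ, ‖l‖ = 1 → ∃ H : ℂ × ℂ → ℂ × ℂ,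
    Differentiable ℂ H ∧ (∀ w, H (G l w) = w) ∧ (∀ w, G l (H w) = w)
  /-- for `|l| = 1` the map `G_l` fixes the origin -/
  fixed : ∀ l : ℂ, ‖l‖ = 1 → G l 0 = 0
  /-- for `|l| = 1` all eigenvalues of `DG_l(0)` have modulus less than one -/
  attracting : ∀ l : ℂ, ‖l‖ = 1 → ∀ μ : ℂ,
    Module.End.HasEigenvalue ((fderiv ℂ (G l) 0 : (ℂ × ℂ) →L[ℂ] (ℂ × ℂ)) :
      (ℂ × ℂ) →ₗ[ℂ] (ℂ × ℂ)) μ → ‖μ‖ < 1

/-- The stable manifold of `(p, 0, 0)` in the fibre over `p`, as a subset of `ℂ²`. -/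
def stableFiber (d : ℕ) (G : ℂ → ℂ × ℂ → ℂ × ℂ) (p : ℂ) : Set (ℂ × ℂ) :=
  {w | Tendsto (fun n : ℕ => ‖(skew d G)^[n] (p, w) - (skew d G)^[n] (p, 0)‖) atTop (𝓝 0)}

/-- The set `S ⊆ ℂ²` is the image of an injective holomorphic map from `ℂ²`.  This holds for every
subset which is biholomorphic to `ℂ²`. -/
def IsHolomorphicCopyOfC2 (S : Set (ℂ × ℂ)) : Prop :=
  ∃ φ : ℂ × ℂ → ℂ × ℂ, Differentiable ℂ φ ∧ Function.Injective φ ∧ Set.range φ = S

/-- There is no injective holomorphic function on `ℂ²`. -/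
theorem not_injective_of_differentiable (f : ℂ × ℂ → ℂ) (hf : Differentiable ℂ f) :
    ¬ Function.Injective f := by
  intro hinj
  have hg : Differentiable ℂ (fun z : ℂ => f (z, 0)) :=
    hf.comp (differentiable_id.prodMk (differentiable_const _))
  have hga : AnalyticAt ℂ (fun z : ℂ => f (z, 0)) 0 := hg.analyticAt 0
  rcases hga.eventually_constant_or_nhds_le_map_nhds with h | h
  · -- constant near zero: contradiction with injectivity
    have h2 : ∀ᶠ z : ℂ in 𝓝[≠] 0, f (z, 0) = f (0, 0) := h.filter_mono nhdsWithin_le_nhds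
    obtain ⟨z, hz, hz0⟩ := (h2.and self_mem_nhdsWithin).exists
    have := hinj hz
    rw [Prod.mk.injEq] at this
    exact hz0 this.1
  · have himg : Set.range (fun z : ℂ => f (z, 0)) ∈ 𝓝 (f (0, 0)) := by
      apply h
      rw [mem_map]
      apply Filter.mem_of_superset Filter.univ_mem
      intro z _
      exact ⟨z, rfl⟩
    have hc : Tendsto (fun y : ℂ => f (0, y)) (𝓝[≠] 0) (𝓝 (f (0, 0))) := by
      have h1 : Continuous (fun y : ℂ => f (0, y)) :=
        hf.continuous.comp (continuous_const.prodMk continuous_id)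
      exact (h1.tendsto 0).mono_left nhdsWithin_le_nhds
    obtain ⟨y, hy, hy0⟩ := ((hc.eventually himg).and self_mem_nhdsWithin).exists
    obtain ⟨z, hz⟩ := hy
    have := hinj hz
    rw [Prod.mk.injEq] at this
    exact hy0 this.2.symm

/-- A subset of `ℂ²` on which a nonzero linear functional vanishes is not a copy of `ℂ²`. -/
theorem not_copy_of_line (S : Set (ℂ × ℂ)) (t : ℂ) (hS : ∀ w ∈ S, w.1 + t * w.2 = 0) :
    ¬ IsHolomorphicCopyOfC2 S := by
  rintro ⟨φ, hφ, hinj, hr⟩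
  apply not_injective_of_differentiable (fun x => (φ x).2) hφ.snd
  intro x y hxy
  apply hinj
  have hx := hS (φ x) (hr ▸ ⟨x, rfl⟩)
  have hy := hS (φ y) (hr ▸ ⟨y, rfl⟩)
  have h2 : (φ x).2 = (φ y).2 := hxy
  have h1 : (φ x).1 = (φ y).1 := by
    rw [h2] at hx
    linear_combination hx - hy
  exact Prod.ext h1 h2

/-- The linear map with matrix `((1/2, a), (b, 1/2))`. -/
noncomputable def L (a b : ℂ) : (ℂ × ℂ) →L[ℂ] (ℂ × ℂ) :=
  (((1 / 2 : ℂ) • ContinuousLinearMap.fst ℂ ℂ ℂ + a • ContinuousLinearMap.snd ℂ ℂ ℂ)).prod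
    ((b • ContinuousLinearMap.fst ℂ ℂ ℂ + (1 / 2 : ℂ) • ContinuousLinearMap.snd ℂ ℂ ℂ))

theorem L_apply (a b : ℂ) (w : ℂ × ℂ) :
    L a b w = (1 / 2 * w.1 + a * w.2, b * w.1 + 1 / 2 * w.2) := by
  simp [L]

theorem L_eigen (a b μ : ℂ) (hab : ‖a * b‖ < 1 / 4)
    (h : Module.End.HasEigenvalue ((L a b : (ℂ × ℂ) →L[ℂ] (ℂ × ℂ)) :
      (ℂ × ℂ) →ₗ[ℂ] (ℂ × ℂ)) μ) : ‖μ‖ < 1 := by
  obtain ⟨v, hv⟩ := h.exists_hasEigenvector
  have h1 : L a b v = μ • v := hv.apply_eq_smul
  have h0 : v ≠ 0 := hv.2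
  rw [L_apply] at h1
  have e1 : 1 / 2 * v.1 + a * v.2 = μ * v.1 := by
    have := congrArg Prod.fst h1
    simpa using this
  have e2 : b * v.1 + 1 / 2 * v.2 = μ * v.2 := by
    have := congrArg Prod.snd h1
    simpa using this
  have e3 : (μ - 1 / 2) ^ 2 = a * b := by
    by_contra hne
    have hne' : (μ - 1 / 2) ^ 2 - a * b ≠ 0 := sub_ne_zero.mpr hne
    have f1 : ((μ - 1 / 2) ^ 2 - a * b) * v.1 = 0 := by
      linear_combination (-(μ - 1 / 2)) * e1 - a * e2
    have f2 : ((μ - 1 / 2) ^ 2 - a * b) * v.2 = 0 := by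
      linear_combination (-(μ - 1 / 2)) * e2 - b * e1
    have g1 : v.1 = 0 := by
      rcases mul_eq_zero.mp f1 with h | h
      · exact absurd h hne'
      · exact h
    have g2 : v.2 = 0 := by
      rcases mul_eq_zero.mp f2 with h | h
      · exact absurd h hne'
      · exact h
    exact h0 (Prod.ext g1 g2)
  have e4 : ‖μ - 1 / 2‖ ^ 2 < 1 / 4 := by
    rw [← norm_pow, e3]
    exact hab
  have e5 : ‖μ - 1 / 2‖ < 1 / 2 := by
    nlinarith [norm_nonneg (μ - 1 / 2)]
  calc ‖μ‖ = ‖(μ - 1 / 2) + 1 / 2‖ := by ring_nf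
    _ ≤ ‖μ - 1 / 2‖ + ‖(1 / 2 : ℂ)‖ := norm_add_le _ _
    _ = ‖μ - 1 / 2‖ + 1 / 2 := by norm_num
    _ < 1 := by linarith

theorem L_inverse (a b : ℂ) (hab : ‖a * b‖ < 1 / 4) :
    ∃ H : ℂ × ℂ → ℂ × ℂ, Differentiable ℂ H ∧ (∀ w, H (L a b w) = w) ∧
      (∀ w, L a b (H w) = w) := by
  have hD : (1 / 4 - a * b : ℂ) ≠ 0 := by
    intro h
    have h1 : a * b = 1 / 4 := by linear_combination -h
    rw [h1] at hab
    norm_num at hab
  set k : ℂ := (1 / 4 - a * b)⁻¹ with hk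
  have hk1 : (1 / 4 - a * b) * k = 1 := mul_inv_cancel₀ hD
  refine ⟨fun w => (k * (1 / 2 * w.1 - a * w.2), k * (1 / 2 * w.2 - b * w.1)), ?_, ?_, ?_⟩
  · fun_prop
  · intro w
    rw [L_apply]
    apply Prod.ext
    · show k * (1 / 2 * (1 / 2 * w.1 + a * w.2) - a * (b * w.1 + 1 / 2 * w.2)) = w.1
      linear_combination w.1 * hk1
    · show k * (1 / 2 * (b * w.1 + 1 / 2 * w.2) - b * (1 / 2 * w.1 + a * w.2)) = w.2
      linear_combination w.2 * hk1
  · intro w
    rw [L_apply]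
    apply Prod.ext
    · show 1 / 2 * (k * (1 / 2 * w.1 - a * w.2)) + a * (k * (1 / 2 * w.2 - b * w.1)) = w.1
      linear_combination w.1 * hk1
    · show b * (k * (1 / 2 * w.1 - a * w.2)) + 1 / 2 * (k * (1 / 2 * w.2 - b * w.1)) = w.2
      linear_combination w.2 * hk1

/-- The first off-diagonal coefficient: `1` at `p`, `0` at `q`. -/
noncomputable def ca (p q : ℂ) (m : ℕ) (l : ℂ) : ℂ := ((l + p) / (2 * p)) ^ m * ((l - q) / (p - q))

theorem norm_add_sq_of_circle (l p : ℂ) (hl : ‖l‖ = 1) (hp : ‖p‖ = 1) :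
    ‖l + p‖ ^ 2 = 4 - ‖l - p‖ ^ 2 := by
  have h := parallelogram_law_with_norm ℝ l p
  rw [hl, hp] at h
  nlinarith

theorem exists_small (p q : ℂ) (hp : ‖p‖ = 1) (hq : ‖q‖ = 1) (hpq : p ≠ q) :
    ∃ m : ℕ, ∀ l : ℂ, ‖l‖ = 1 → ‖ca p q m l * ca q p m l‖ < 1 / 4 := by
  set D : ℝ := ‖p - q‖ with hD
  have hDpos : 0 < D := norm_pos_iff.mpr (sub_ne_zero.mpr hpq)
  have hD2 : D ≤ 2 := by
    calc D ≤ ‖p‖ + ‖q‖ := norm_sub_le _ _
      _ = 2 := by rw [hp, hq]; norm_num
  set c : ℝ := Real.sqrt (1 - D ^ 2 / 16) with hc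
  have hc0 : 0 ≤ c := Real.sqrt_nonneg _
  have hc2 : c ^ 2 = 1 - D ^ 2 / 16 := by
    rw [hc, Real.sq_sqrt]; nlinarith
  have hc1 : c < 1 := by
    by_contra h
    push Not at h
    have : 1 ≤ c ^ 2 := by nlinarith
    rw [hc2] at this
    nlinarith [sq_nonneg D, pow_pos hDpos 2]
  -- the key estimate
  have key : ∀ l : ℂ, ‖l‖ = 1 → ‖l + p‖ * ‖l + q‖ ≤ 4 * c := by
    intro l hl
    have h1 := norm_add_sq_of_circle l p hl hp
    have h2 := norm_add_sq_of_circle l q hl hq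
    have h3 : D ≤ ‖l - p‖ + ‖l - q‖ := by
      have : p - q = (l - q) - (l - p) := by ring
      rw [hD, this]
      calc ‖(l - q) - (l - p)‖ ≤ ‖l - q‖ + ‖l - p‖ := norm_sub_le _ _
        _ = _ := add_comm _ _
    have h4 : (‖l + p‖ * ‖l + q‖) ^ 2 ≤ (4 * c) ^ 2 := by
      rw [mul_pow, mul_pow, h1, h2, hc2]
      have a1 : 0 ≤ ‖l + p‖ ^ 2 := sq_nonneg _
      have a2 : 0 ≤ ‖l + q‖ ^ 2 := sq_nonneg _
      rw [h1] at a1
      rw [h2] at a2
      have b1 : 0 ≤ ‖l - p‖ := norm_nonneg _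
      have b2 : 0 ≤ ‖l - q‖ := norm_nonneg _
      have c1 : D ^ 2 ≤ (‖l - p‖ + ‖l - q‖) ^ 2 := by
        apply pow_le_pow_left₀ hDpos.le h3
      have c2 : (‖l - p‖ + ‖l - q‖) ^ 2 ≤ 2 * (‖l - p‖ ^ 2 + ‖l - q‖ ^ 2) := by
        nlinarith [sq_nonneg (‖l - p‖ - ‖l - q‖)]
      -- (4 - x)(4 - y) ≤ 16 - D²
      nlinarith [mul_nonneg (sq_nonneg ‖l - p‖) a2, mul_nonneg (sq_nonneg ‖l - q‖) a1,
        sq_nonneg (‖l - p‖ ^ 2 - ‖l - q‖ ^ 2)]
    exact abs_le_of_sq_le_sq' h4 (by positivity) |>.2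
  obtain ⟨m, hm⟩ := exists_pow_lt_of_lt_one (show (0 : ℝ) < D ^ 2 / 32 by positivity) hc1
  refine ⟨m, fun l hl => ?_⟩
  have e1 : ‖ca p q m l * ca q p m l‖
      = ((‖l + p‖ * ‖l + q‖) / 4) ^ m * ((‖l - q‖ * ‖l - p‖) / D ^ 2) := by
    have hqp : ‖q - p‖ = D := by rw [hD, norm_sub_rev]
    simp only [ca, norm_mul, norm_pow, norm_div, hp, hq, hqp, ← hD]
    rw [show ‖(2 : ℂ)‖ = 2 by norm_num]
    have : ((‖l + p‖ * ‖l + q‖) / 4) ^ m = (‖l + p‖ / 2) ^ m * (‖l + q‖ / 2) ^ m := by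
      rw [← mul_pow]; congr 1; ring
    rw [this]
    have hDne : D ≠ 0 := hDpos.ne'
    simp only [mul_one]
    field_simp
  rw [e1]
  have n1 : ‖l - q‖ ≤ 2 := by
    calc ‖l - q‖ ≤ ‖l‖ + ‖q‖ := norm_sub_le _ _
      _ = 2 := by rw [hl, hq]; norm_num
  have n2 : ‖l - p‖ ≤ 2 := by
    calc ‖l - p‖ ≤ ‖l‖ + ‖p‖ := norm_sub_le _ _
      _ = 2 := by rw [hl, hp]; norm_num
  have n3 : ‖l - q‖ * ‖l - p‖ ≤ 4 := by
    nlinarith [norm_nonneg (l - q), norm_nonneg (l - p)]
  have n4 : ((‖l + p‖ * ‖l + q‖) / 4) ^ m ≤ c ^ m := by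
    apply pow_le_pow_left₀ (by positivity)
    have := key l hl
    linarith
  calc ((‖l + p‖ * ‖l + q‖) / 4) ^ m * ((‖l - q‖ * ‖l - p‖) / D ^ 2)
      ≤ c ^ m * (4 / D ^ 2) := by
        apply mul_le_mul n4 _ (by positivity) (by positivity)
        apply div_le_div_of_nonneg_right n3 (by positivity)
    _ ≤ D ^ 2 / 32 * (4 / D ^ 2) := by
        apply mul_le_mul_of_nonneg_right hm.le (by positivity)
    _ = 1 / 8 := by
        have hDne : D ≠ 0 := hDpos.ne'
        field_simp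
        norm_num
    _ < 1 / 4 := by norm_num

theorem ca_self (p q : ℂ) (m : ℕ) (hp : p ≠ 0) (hpq : p ≠ q) : ca p q m p = 1 := by
  have h : p - q ≠ 0 := sub_ne_zero.mpr hpq
  have h2 : (p + p) / (2 * p) = 1 := by
    field_simp
    ring
  rw [ca, h2, one_pow, div_self h, mul_one]

theorem ca_other (p q : ℂ) (m : ℕ) : ca p q m q = 0 := by
  simp [ca]

theorem result : ∀ d : ℕ, 2 ≤ d → ∃ G : ℂ → ℂ × ℂ → ℂ × ℂ, Admissible G ∧
    ∃ p : ℂ, ‖p‖ = 1 ∧
      (∃ v : ℂ × ℂ, v ≠ 0 ∧ stableFiber d G p = {w | ∃ c : ℂ, w = c • v}) ∧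
      ¬ IsHolomorphicCopyOfC2 (stableFiber d G p) := by
  intro d hd
  -- the periodic point
  have hN : d ^ 2 - 1 ≠ 0 := by
    have : 2 ^ 2 ≤ d ^ 2 := Nat.pow_le_pow_left hd 2
    omega
  obtain ⟨p, hprim⟩ : ∃ p : ℂ, IsPrimitiveRoot p (d ^ 2 - 1) :=
    ⟨_, Complex.isPrimitiveRoot_exp _ hN⟩
  have hp1 : p ^ (d ^ 2 - 1) = 1 := hprim.pow_eq_one
  have hp : ‖p‖ = 1 := Complex.norm_eq_one_of_pow_eq_one hp1 hN
  have hp0 : p ≠ 0 := by
    intro h; rw [h] at hp; simp at hp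
  set q : ℂ := p ^ d with hqdef
  have hq : ‖q‖ = 1 := by rw [hqdef, norm_pow, hp, one_pow]
  have hq0 : q ≠ 0 := pow_ne_zero _ hp0
  have hqd : q ^ d = p := by
    rw [hqdef, ← pow_mul]
    have h1 : d * d = (d ^ 2 - 1) + 1 := by
      have : 2 ^ 2 ≤ d ^ 2 := Nat.pow_le_pow_left hd 2
      have h2 : d * d = d ^ 2 := by ring
      omega
    rw [h1, pow_succ, hp1, one_mul]
  have hpq : p ≠ q := by
    intro h
    have h1 : p ^ (d - 1) ≠ 1 := by
      apply hprim.pow_ne_one_of_pos_of_lt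
      · omega
      · have h3 : d * 2 ≤ d * d := Nat.mul_le_mul_left d hd
        have h2 : d * d = d ^ 2 := by ring
        omega
    apply h1
    have h2 : p * p ^ (d - 1) = p * 1 := by
      rw [← pow_succ', Nat.sub_add_cancel (by omega), mul_one]
      exact h.symm
    exact mul_left_cancel₀ hp0 h2
  obtain ⟨m, hm⟩ := exists_small p q hp hq hpq
  set G : ℂ → ℂ × ℂ → ℂ × ℂ := fun l w => L (ca p q m l) (ca q p m l) w with hG
  have hGapp : ∀ l w, G l w = (1 / 2 * w.1 + ca p q m l * w.2, ca q p m l * w.1 + 1 / 2 * w.2) :=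
    fun l w => L_apply _ _ _
  have hca : ∀ p q : ℂ, Differentiable ℂ (ca p q m) := by
    intro p q
    unfold ca
    exact (((differentiable_id.add_const p).div_const _).pow m).mul
      ((differentiable_id.sub_const q).div_const _)
  refine ⟨G, ⟨?_, ?_, ?_, ?_⟩, p, hp, ?_⟩
  · have h1 : Differentiable ℂ (fun x : ℂ × (ℂ × ℂ) => x.1) := differentiable_fst
    have h2 : Differentiable ℂ (fun x : ℂ × (ℂ × ℂ) => x.2.1) := differentiable_fst.comp
      differentiable_snd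
    have h3 : Differentiable ℂ (fun x : ℂ × (ℂ × ℂ) => x.2.2) := differentiable_snd.comp
      differentiable_snd
    have h4 : (fun x : ℂ × (ℂ × ℂ) => G x.1 x.2) = fun x : ℂ × (ℂ × ℂ) =>
        (1 / 2 * x.2.1 + ca p q m x.1 * x.2.2, ca q p m x.1 * x.2.1 + 1 / 2 * x.2.2) := by
      funext x; exact hGapp _ _
    rw [h4]
    exact (((differentiable_const _).mul h2).add (((hca p q).comp h1).mul h3)).prodMk
      ((((hca q p).comp h1).mul h2).add ((differentiable_const _).mul h3))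
  · intro l hl
    exact L_inverse _ _ (hm l hl)
  · intro l _
    exact map_zero (L (ca p q m l) (ca q p m l))
  · intro l hl μ hμ
    have hfd : fderiv ℂ (G l) 0 = L (ca p q m l) (ca q p m l) :=
      ContinuousLinearMap.fderiv _
    rw [hfd] at hμ
    exact L_eigen _ _ μ (hm l hl) hμ
  · -- the stable fibre
    have hGp : ∀ w : ℂ × ℂ, G p w = (1 / 2 * w.1 + w.2, 1 / 2 * w.2) := by
      intro w
      rw [hGapp, ca_self p q m hp0 hpq, ca_other q p m]
      simp
    have hGq : ∀ w : ℂ × ℂ, G q w = (1 / 2 * w.1, w.1 + 1 / 2 * w.2) := by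
      intro w
      rw [hGapp, ca_other p q m, ca_self q p m hq0 (Ne.symm hpq)]
      simp
    set s : ℝ := Real.sqrt 2 with hs
    have hs2 : (s : ℂ) ^ 2 = 2 := by
      rw [← Complex.ofReal_pow, hs, Real.sq_sqrt (by norm_num)]; norm_num
    have hs2r : s ^ 2 = 2 := by rw [hs, Real.sq_sqrt (by norm_num)]
    have hs0 : 0 < s := Real.sqrt_pos.mpr (by norm_num)
    have hs1 : 1 < s := by nlinarith
    have hs15 : s < 3 / 2 := by nlinarith
    -- the return map
    set M : ℂ × ℂ → ℂ × ℂ := fun w => (1 / 4 * w.1 + 1 / 2 * w.2, 1 / 2 * w.1 + 5 / 4 * w.2)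
      with hM
    have hsk1 : ∀ w, skew d G (p, w) = (q, G p w) := fun w => rfl
    have hsk2 : ∀ w, (skew d G)^[2] (p, w) = (p, M w) := by
      intro w
      have : (skew d G)^[2] (p, w) = skew d G (skew d G (p, w)) := rfl
      rw [this, hsk1]
      show (q ^ d, G q (G p w)) = (p, M w)
      rw [hqd, hGp, hGq, hM]
      congr 1
      apply Prod.ext
      · show 1 / 2 * (1 / 2 * w.1 + w.2) = 1 / 4 * w.1 + 1 / 2 * w.2
        ring
      · show 1 / 2 * w.1 + w.2 + 1 / 2 * (1 / 2 * w.2) = 1 / 2 * w.1 + 5 / 4 * w.2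
        ring
    have heven : ∀ (n : ℕ) (w : ℂ × ℂ), (skew d G)^[2 * n] (p, w) = (p, M^[n] w) := by
      intro n
      induction n with
      | zero => intro w; rfl
      | succ n ih =>
        intro w
        rw [show 2 * (n + 1) = 2 * n + 2 by ring, Function.iterate_add_apply, hsk2, ih,
          Function.iterate_succ_apply]
    have hodd : ∀ (n : ℕ) (w : ℂ × ℂ), (skew d G)^[2 * n + 1] (p, w) = (q, G p (M^[n] w)) := by
      intro n w
      rw [Function.iterate_succ_apply', heven, hsk1]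
    have hM0 : M 0 = 0 := by
      rw [hM]; simp
    have hMn0 : ∀ n : ℕ, M^[n] 0 = 0 := by
      intro n
      exact Function.iterate_fixed hM0 n
    have hGp0 : G p 0 = 0 := map_zero (L (ca p q m p) (ca q p m p))
    -- the functional
    have hfun : ∀ w : ℂ × ℂ, (M w).1 + (1 + s) * (M w).2
        = (3 / 4 + s / 2) * (w.1 + (1 + s) * w.2) := by
      intro w
      rw [hM]
      show 1 / 4 * w.1 + 1 / 2 * w.2 + (1 + s) * (1 / 2 * w.1 + 5 / 4 * w.2)
        = (3 / 4 + s / 2) * (w.1 + (1 + s) * w.2)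
      linear_combination (-(1 / 2) * w.2) * hs2
    have hfunn : ∀ (n : ℕ) (w : ℂ × ℂ), (M^[n] w).1 + (1 + s) * (M^[n] w).2
        = (3 / 4 + s / 2) ^ n * (w.1 + (1 + s) * w.2) := by
      intro n
      induction n with
      | zero => intro w; simp
      | succ n ih =>
        intro w
        rw [Function.iterate_succ_apply, ih, hfun, pow_succ]
        ring
    have hline : ∀ w ∈ stableFiber d G p, w.1 + (1 + (s : ℂ)) * w.2 = 0 := by
      intro w hw
      have hw1 : Tendsto (fun n : ℕ => ‖(skew d G)^[n] (p, w) - (skew d G)^[n] (p, 0)‖) atTop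
        (𝓝 0) := hw
      have h2n : Tendsto (fun n : ℕ => 2 * n) atTop atTop :=
        tendsto_id.const_mul_atTop' (by norm_num)
      have hw2 := hw1.comp h2n
      have hw3 : Tendsto (fun n : ℕ => ‖M^[n] w‖) atTop (𝓝 0) := by
        refine hw2.congr (fun n => ?_)
        show ‖(skew d G)^[2 * n] (p, w) - (skew d G)^[2 * n] (p, 0)‖ = ‖M^[n] w‖
        rw [heven, heven, hMn0]
        simp [Prod.norm_def]
      have hw4 : Tendsto (fun n : ℕ => M^[n] w) atTop (𝓝 0) := tendsto_zero_iff_norm_tendsto_zero.mpr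
        hw3
      have hcont : Continuous (fun w : ℂ × ℂ => w.1 + (1 + (s : ℂ)) * w.2) := by fun_prop
      have hw5 : Tendsto (fun n : ℕ => (M^[n] w).1 + (1 + (s : ℂ)) * (M^[n] w).2) atTop (𝓝 0) := by
        have h := (hcont.tendsto 0).comp hw4
        rw [show ((0 : ℂ × ℂ).1 + (1 + (s : ℂ)) * (0 : ℂ × ℂ).2) = 0 by simp] at h
        exact h
      by_contra hne
      have hpos : 0 < ‖w.1 + (1 + (s : ℂ)) * w.2‖ := norm_pos_iff.mpr hne
      have hw6 := hw5.norm
      rw [norm_zero] at hw6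
      have hev : ∀ᶠ n : ℕ in atTop, ‖(M^[n] w).1 + (1 + (s : ℂ)) * (M^[n] w).2‖
          < ‖w.1 + (1 + (s : ℂ)) * w.2‖ := (tendsto_order.mp hw6).2 _ hpos
      obtain ⟨n, hn⟩ := hev.exists
      rw [hfunn, norm_mul, norm_pow] at hn
      have hl1 : 1 ≤ ‖(3 / 4 + (s : ℂ) / 2)‖ := by
        have : (3 / 4 + (s : ℂ) / 2) = ((3 / 4 + s / 2 : ℝ) : ℂ) := by push_cast; ring
        rw [this, Complex.norm_real, Real.norm_eq_abs, abs_of_pos (by positivity)]
        linarith
      have hl2 : 1 ≤ ‖(3 / 4 + (s : ℂ) / 2)‖ ^ n := one_le_pow₀ hl1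
      nlinarith
    refine ⟨⟨(-(1 + (s : ℂ)), 1), ?_, ?_⟩, not_copy_of_line _ _ hline⟩
    · intro h
      have := congrArg Prod.snd h
      simp at this
    · ext w
      constructor
      · intro hw
        refine ⟨w.2, ?_⟩
        have h := hline w hw
        apply Prod.ext
        · show w.1 = w.2 * (-(1 + (s : ℂ)))
          linear_combination h
        · show w.2 = w.2 * 1
          ring
      · rintro ⟨c, rfl⟩
        set v : ℂ × ℂ := (-(1 + (s : ℂ)), 1) with hv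
        set r : ℂ := 3 / 4 - s / 2 with hr
        have hMlin : ∀ x : ℂ, M (x • v) = (r * x) • v := by
          intro x
          rw [hM, hv, hr]
          apply Prod.ext
          · show 1 / 4 * (x * (-(1 + (s : ℂ)))) + 1 / 2 * (x * 1)
              = ((3 / 4 - s / 2) * x) * (-(1 + (s : ℂ)))
            linear_combination (-(1 / 2) * x) * hs2
          · show 1 / 2 * (x * (-(1 + (s : ℂ)))) + 5 / 4 * (x * 1) = ((3 / 4 - s / 2) * x) * 1
            ring
        have hMn : ∀ n : ℕ, M^[n] (c • v) = (r ^ n * c) • v := by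
          intro n
          induction n with
          | zero => simp
          | succ n ih =>
            rw [Function.iterate_succ_apply', ih, hMlin, pow_succ]
            congr 1
            ring
        have hrn : ‖r‖ < 1 := by
          have : r = ((3 / 4 - s / 2 : ℝ) : ℂ) := by rw [hr]; push_cast; ring
          rw [this, Complex.norm_real, Real.norm_eq_abs, abs_lt]
          constructor <;> linarith
        have hGlin : ∀ (x : ℂ) (u : ℂ × ℂ), G p (x • u) = x • G p u := by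
          intro x u
          exact map_smul (L (ca p q m p) (ca q p m p)) x u
        set C : ℝ := ‖c • v‖ + ‖G p (c • v)‖ with hC
        show Tendsto (fun n : ℕ => ‖(skew d G)^[n] (p, c • v) - (skew d G)^[n] (p, 0)‖) atTop
          (𝓝 0)
        have hbound : ∀ n : ℕ, ‖(skew d G)^[n] (p, c • v) - (skew d G)^[n] (p, 0)‖
            ≤ ‖r‖ ^ (n / 2) * C := by
          intro n
          rcases Nat.even_or_odd' n with ⟨k, rfl | rfl⟩
          · rw [heven, heven, hMn0, hMn, mul_smul]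
            have h1 : 2 * k / 2 = k := by omega
            rw [h1]
            have h2 : ‖((p, r ^ k • c • v) : ℂ × (ℂ × ℂ)) - (p, 0)‖ = ‖r‖ ^ k * ‖c • v‖ := by
              rw [Prod.mk_sub_mk, sub_self, sub_zero, Prod.norm_def]
              simp only [norm_zero]
              rw [max_eq_right (norm_nonneg _), norm_smul, norm_pow]
            rw [h2, hC]
            apply mul_le_mul_of_nonneg_left _ (by positivity)
            linarith [norm_nonneg (G p (c • v))]
          · rw [hodd, hodd, hMn0, hMn, mul_smul, hGlin, hGp0]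
            have h1 : (2 * k + 1) / 2 = k := by omega
            rw [h1]
            have h2 : ‖((q, r ^ k • G p (c • v)) : ℂ × (ℂ × ℂ)) - (q, 0)‖
                = ‖r‖ ^ k * ‖G p (c • v)‖ := by
              rw [Prod.mk_sub_mk, sub_self, sub_zero, Prod.norm_def]
              simp only [norm_zero]
              rw [max_eq_right (norm_nonneg _), norm_smul, norm_pow]
            rw [h2, hC]
            apply mul_le_mul_of_nonneg_left _ (by positivity)
            linarith [norm_nonneg (c • v)]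
        have hlim : Tendsto (fun n : ℕ => ‖r‖ ^ (n / 2) * C) atTop (𝓝 0) := by
          have h1 : Tendsto (fun n : ℕ => n / 2) atTop atTop := by
            apply tendsto_atTop_atTop.mpr
            intro b
            exact ⟨2 * b, fun a ha => by omega⟩
          have h2 : Tendsto (fun n : ℕ => ‖r‖ ^ n) atTop (𝓝 0) :=
            tendsto_pow_atTop_nhds_zero_of_lt_one (norm_nonneg _) hrn
          have h3 := (h2.comp h1).mul_const C
          simpa using h3
        exact squeeze_zero (fun n => norm_nonneg _) hbound hlim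

end Pool.Agent.Results.MP_e40659_an.SaddleFiber
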